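import Pool.Agent.helper84.NR.SpecW

set_option autoImplicit false

namespace Pool.Agent.helper84.NR

open scoped Classical
open Finset

/-- Row VYSW: from a gap to `C_X` (same proof as row VYS). -/
theorem VYSW : VYSW_stmt := by
  intro V F _ _ M x y J hT q hpure B hB k hk v hv hA hg
  obtain ⟨hqx, hqy⟩ := hpure
  obtain ⟨A, hAx, hAv⟩ := hA
  obtain ⟨g, hg1, hg2⟩ := hg
  by_contra hcon0
  have hcon : ∀ e, v ∈ e → cx M x e → ∀ g, OnE M.toCyc g e →
      Quot.mk (lk M (inU M x y J)) g ≠ q :=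
    fun e h1 h2 g h3 h4 => hcon0 ⟨e, h1, h2, g, h3, h4⟩
  obtain ⟨e1, e2⟩ := h_EDG V F M
  have ends : ∀ f (e : Sym2 V), OnE M.toCyc f e → ∀ u ∈ e, OnV M.toCyc f u := by
    intro f e he u hu
    obtain ⟨w, rfl⟩ := Sym2.mem_iff_exists.1 hu
    exact (e1 f u w he).1
  have hBE : ∀ B' k', OnE M.toCyc B' s(ww M y B' k', ww M y B' (k' + 1)) :=
    fun B' k' => ⟨st M y B' + k', rfl⟩
  have hBy : OnV M.toCyc B y := hT.jy B hB
  have hBv : OnV M.toCyc B v := ends B _ (hBE B k) v hv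
  have hvy : v ≠ y := by
    intro h
    exact hT.ne A ⟨hAx, h ▸ hAv⟩
  have hyn : ∀ B' ∈ J, ∀ k', inb M x y B' k' → y ∉ s(ww M y B' k', ww M y B' (k' + 1)) := by
    intro B' hB' k' hin hmem
    obtain ⟨⟨a, ha1, ha2⟩, b, hb1, hb2⟩ := hin
    have hw0 := (h_WW0 V F M y B' (hT.jy B' hB')).1
    have hinj := (h_IDX V F M.toCyc B' (st M y B')).1
    have ha3 := ha2.1
    have hb3 := hb2.2.1
    have key : ∀ i, 1 ≤ i → i < M.len B' → ww M y B' i ≠ y := by
      intro i hi1 hi2 h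
      have h3 := hinj i 0 hi2 (by omega) (h.trans hw0.symm)
      omega
    rw [Sym2.mem_iff] at hmem
    rcases hmem with h | h
    · exact key k' (by omega) (by omega) h.symm
    · exact key (k' + 1) (by omega) (by omega) h.symm
  have hT2 := (h_DEG V F M y).2.2.2.2 v hvy ⟨B, hBy, hBv⟩
  have hpar := h_PAR V F M {f | Quot.mk (lk M (inU M x y J)) f = q} v
  have hsub : (univ.filter (fun e : Sym2 V => v ∈ e ∧
      (∃ f, OnE M.toCyc f e ∧ f ∈ {f | Quot.mk (lk M (inU M x y J)) f = q}) ∧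
      ∃ g, OnE M.toCyc g e ∧ g ∉ {f | Quot.mk (lk M (inU M x y J)) f = q})) ⊆
      (univ.filter (fun e : Sym2 V => v ∈ e ∧ y ∉ e ∧
      ∃ A, OnV M.toCyc A y ∧ OnE M.toCyc A e)) := by
    intro e he
    rw [mem_filter] at he ⊢
    obtain ⟨-, hve, ⟨f, hf1, hf2⟩, g', hg1', hg2'⟩ := he
    have hU : inU M x y J e := by
      by_contra hU
      apply hg2'
      have h3 : Quot.mk (lk M (inU M x y J)) f = Quot.mk (lk M (inU M x y J)) g' :=
        Quot.sound ⟨e, hU, hf1, hg1'⟩
      exact h3.symm.trans hf2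
    rcases hU with hU | ⟨B', hB', k', hk', rfl⟩
    · exact absurd hf2 (hcon e hve hU f hf1)
    · exact ⟨mem_univ _, hve, hyn B' hB' k' hk', B', hT.jy B' hB', hBE B' k'⟩
  have hh : s(ww M y B k, ww M y B (k + 1)) ∈ (univ.filter (fun e : Sym2 V => v ∈ e ∧
      (∃ f, OnE M.toCyc f e ∧ f ∈ {f | Quot.mk (lk M (inU M x y J)) f = q}) ∧
      ∃ g, OnE M.toCyc g e ∧ g ∉ {f | Quot.mk (lk M (inU M x y J)) f = q})) := by
    rw [mem_filter]
    exact ⟨mem_univ _, hv, ⟨g, hg1, hg2⟩, B, hBE B k, hqy B hBy⟩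
  have heq := eq_of_subset_of_card_le hsub (by
    have h1 := card_pos.2 ⟨_, hh⟩
    obtain ⟨r, hr⟩ := hpar
    omega)
  have hmain : A ∈ {f | Quot.mk (lk M (inU M x y J)) f = q ∨ OnV M.toCyc f y} := by
    refine M.link v _ ?_ B A hBv hAv (Or.inr hBy)
    intro e hve f g' hf hg' hfS
    by_cases hye : y ∈ e
    · exact Or.inr (ends g' e hg' y hye)
    · by_cases hTe : ∃ A', OnV M.toCyc A' y ∧ OnE M.toCyc A' e
      · have hTe' := hTe
        obtain ⟨A', hA1, hA2⟩ := hTe'
        have hmem : e ∈ (univ.filter (fun e : Sym2 V => v ∈ e ∧ y ∉ e ∧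
            ∃ A, OnV M.toCyc A y ∧ OnE M.toCyc A e)) := by
          rw [mem_filter]
          exact ⟨mem_univ _, hve, hye, hTe⟩
        rw [← heq, mem_filter] at hmem
        obtain ⟨-, -, ⟨f0, hf01, hf02⟩, -⟩ := hmem
        obtain ⟨g2, hg21, hg22, hg23⟩ := M.two e f0 hf01
        have hA' : A' = g2 := by
          rcases hg23 A' hA2 with h | h
          · exact absurd (h ▸ hf02 : Quot.mk (lk M (inU M x y J)) A' = q) (hqy A' hA1)
          · exact h
        rcases hg23 g' hg' with h | h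
        · left
          rw [h]
          exact hf02
        · right
          rw [h, ← hA']
          exact hA1
      · left
        have hfq : Quot.mk (lk M (inU M x y J)) f = q := by
          rcases hfS with h | h
          · exact h
          · exact absurd ⟨f, h, hf⟩ hTe
        by_contra hgq
        apply hTe
        have hmem : e ∈ (univ.filter (fun e : Sym2 V => v ∈ e ∧
            (∃ f, OnE M.toCyc f e ∧ f ∈ {f | Quot.mk (lk M (inU M x y J)) f = q}) ∧
            ∃ g, OnE M.toCyc g e ∧ g ∉ {f | Quot.mk (lk M (inU M x y J)) f = q})) := by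
          rw [mem_filter]
          exact ⟨mem_univ _, hve, ⟨f, hf, hfq⟩, g', hg', hgq⟩
        rw [heq, mem_filter] at hmem
        exact hmem.2.2.2
  rcases hmain with h | h
  · exact hqx A hAx h
  · exact hT.ne A ⟨hAx, h⟩

end Pool.Agent.helper84.NR
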